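import Pool.Agent.H606.OS.Stm

open MeasureTheory Filter Topology Finset
open Pool.Agent.H606.OS

namespace Pool.Agent.H229.OS.W2

theorem cont_pp : Continuous pp := by
  unfold pp
  exact intervalIntegral.continuous_parametric_intervalIntegral_of_continuous' (by fun_prop) _ _

theorem cont_fj : Continuous fj := by
  unfold fj
  exact intervalIntegral.continuous_parametric_intervalIntegral_of_continuous' (by fun_prop) _ _

theorem harm (J : ℕ) : ∑ j ∈ range J, (1 / (1 + (j:ℝ))) ≤ 1 + Real.log J := by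
  have h := harmonic_le_one_add_log J
  have e : ((harmonic J : ℚ) : ℝ) = ∑ j ∈ range J, (1 / (1 + (j:ℝ))) := by
    unfold harmonic
    push_cast
    refine Finset.sum_congr rfl fun j _ => ?_
    rw [one_div, add_comm]
  rw [← e]
  exact h

theorem bins {C0 : ℝ} (hC0 : 0 < C0) (D : ZD C0) {T : ℝ} (hT : 10 ≤ T) (d : ℂ → ℝ) (c : ℕ → ℝ)
    (hd : ∀ s ∈ zw D.ZG T, 0 ≤ d s ∧ d s ≤ T / 2 ∧ |s.im - c ⌊d s⌋₊| ≤ 1) :
    ∑ s ∈ zw D.ZG T, D.m s * (1 / (1 + (⌊d s⌋₊ : ℝ))) ≤ 4 * C0 * Real.log T ^ 2 := by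
  have hL1 : 1 ≤ Real.log T := by
    rw [Real.le_log_iff_exp_le (by linarith)]
    have := Real.exp_one_lt_d9
    linarith
  have hL0 : 0 < Real.log T := by linarith
  set J : ℕ := ⌊T / 2⌋₊ + 1 with hJ
  have hmaps : ∀ s ∈ zw D.ZG T, ⌊d s⌋₊ ∈ range J := by
    intro s hs
    rw [Finset.mem_range, hJ]
    exact Nat.lt_succ_of_le (Nat.floor_le_floor (hd s hs).2.1)
  have hlog : Real.log (3 * T / 2) ≤ 2 * Real.log T := by
    have h1 : Real.log (3 * T / 2) ≤ Real.log (T ^ 2) :=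
      Real.log_le_log (by linarith) (by nlinarith)
    rw [Real.log_pow] at h1
    push_cast at h1
    exact h1
  have hbin : ∀ j : ℕ, ∑ s ∈ (zw D.ZG T).filter (fun s => ⌊d s⌋₊ = j), D.m s ≤
      2 * C0 * Real.log T := by
    intro j
    have h1 : ∑ s ∈ (zw D.ZG T).filter (fun s => ⌊d s⌋₊ = j), D.m s ≤
        ∑ s ∈ (D.ZG (3 * T / 2)).filter (fun s => |s.im - c j| ≤ 1), D.m s := by
      refine Finset.sum_le_sum_of_subset_of_nonneg ?_ fun s _ _ => D.hm s
      intro s hs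
      rw [Finset.mem_filter] at hs ⊢
      obtain ⟨hs1, hs2⟩ := hs
      refine ⟨(Finset.mem_filter.1 hs1).1, ?_⟩
      have := (hd s hs1).2.2
      rwa [hs2] at this
    refine h1.trans ((D.loc (3 * T / 2) (by linarith) (c j)).trans ?_)
    calc C0 * Real.log (3 * T / 2) ≤ C0 * (2 * Real.log T) :=
          mul_le_mul_of_nonneg_left hlog hC0.le
      _ = 2 * C0 * Real.log T := by ring
  rw [← Finset.sum_fiberwise_of_maps_to hmaps]
  have h2 : ∀ j ∈ range J, ∑ s ∈ (zw D.ZG T).filter (fun s => ⌊d s⌋₊ = j),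
      D.m s * (1 / (1 + (⌊d s⌋₊ : ℝ))) ≤ (1 / (1 + (j:ℝ))) * (2 * C0 * Real.log T) := by
    intro j _
    have h3 : ∑ s ∈ (zw D.ZG T).filter (fun s => ⌊d s⌋₊ = j),
        D.m s * (1 / (1 + (⌊d s⌋₊ : ℝ))) = (1 / (1 + (j:ℝ))) *
        ∑ s ∈ (zw D.ZG T).filter (fun s => ⌊d s⌋₊ = j), D.m s := by
      rw [Finset.mul_sum]
      refine Finset.sum_congr rfl fun s hs => ?_
      rw [(Finset.mem_filter.1 hs).2, mul_comm]
    rw [h3]
    exact mul_le_mul_of_nonneg_left (hbin j) (by positivity)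
  refine (Finset.sum_le_sum h2).trans ?_
  rw [← Finset.sum_mul]
  have h4 : ∑ j ∈ range J, (1 / (1 + (j:ℝ))) ≤ 2 * Real.log T := by
    refine (harm J).trans ?_
    have h5 : Real.log (J : ℝ) ≤ Real.log T := by
      apply Real.log_le_log
      · rw [hJ]; positivity
      · rw [hJ]
        push_cast
        have := Nat.floor_le (show 0 ≤ T / 2 by linarith)
        linarith
    linarith
  calc (∑ j ∈ range J, (1 / (1 + (j:ℝ)))) * (2 * C0 * Real.log T) ≤
        (2 * Real.log T) * (2 * C0 * Real.log T) :=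
          mul_le_mul_of_nonneg_right h4 (by positivity)
    _ = _ := by ring

theorem bins1 {C0 : ℝ} (hC0 : 0 < C0) (D : ZD C0) {T : ℝ} (hT : 10 ≤ T) :
    ∑ s ∈ zw D.ZG T, D.m s * (1 / (1 + (⌊s.im - T⌋₊ : ℝ))) ≤ 4 * C0 * Real.log T ^ 2 := by
  refine bins hC0 D hT (fun s => s.im - T) (fun j => T + j + 1 / 2) fun s hs => ?_
  have h1 := (Finset.mem_filter.1 hs).2
  have h2 := (D.mem _ s (Finset.mem_filter.1 hs).1).2.1
  have h0 : 0 ≤ s.im - T := by linarith
  refine ⟨h0, by linarith, ?_⟩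
  have h3 := Nat.floor_le h0
  have h4 := Nat.lt_floor_add_one (s.im - T)
  rw [abs_le]
  constructor <;> linarith

theorem bins2 {C0 : ℝ} (hC0 : 0 < C0) (D : ZD C0) {T : ℝ} (hT : 10 ≤ T) :
    ∑ s ∈ zw D.ZG T, D.m s * (1 / (1 + (⌊3 * T / 2 - s.im⌋₊ : ℝ))) ≤ 4 * C0 * Real.log T ^ 2 := by
  refine bins hC0 D hT (fun s => 3 * T / 2 - s.im) (fun j => 3 * T / 2 - j - 1 / 2) fun s hs => ?_
  have h1 := (Finset.mem_filter.1 hs).2
  have h2 := (D.mem _ s (Finset.mem_filter.1 hs).1).2.1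
  have h0 : 0 ≤ 3 * T / 2 - s.im := by linarith
  refine ⟨h0, by linarith, ?_⟩
  have h3 := Nat.floor_le h0
  have h4 := Nat.lt_floor_add_one (3 * T / 2 - s.im)
  rw [abs_le]
  constructor <;> linarith

theorem ka_le {a x : ℝ} (ha : 1 ≤ a) (hx : 0 ≤ x) : ka (a * x) ≤ 1 / (1 + (⌊x⌋₊ : ℝ)) := by
  unfold ka
  apply one_div_le_one_div_of_le (by positivity)
  have h1 := Nat.floor_le hx
  have h2 : ((⌊x⌋₊ : ℕ) : ℝ) ≤ ((⌊x⌋₊ : ℕ) : ℝ) ^ 2 := by
    exact_mod_cast Nat.le_self_pow (by norm_num) _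
  have h3 : ((⌊x⌋₊ : ℕ) : ℝ) ^ 2 ≤ x ^ 2 := pow_le_pow_left₀ (by positivity) h1 2
  have h4 : x ^ 2 ≤ (a * x) ^ 2 := by
    rw [mul_pow]
    have : 1 ≤ a ^ 2 := one_le_pow₀ ha
    nlinarith [sq_nonneg x]
  linarith

theorem inv_le {a x : ℝ} (ha : 1 ≤ a) (hx : 0 ≤ x) : 1 / (1 + a * x) ≤ 1 / (1 + (⌊x⌋₊ : ℝ)) := by
  apply one_div_le_one_div_of_le (by positivity)
  have h1 := Nat.floor_le hx
  nlinarith

theorem ka_neg (x : ℝ) : ka (-x) = ka x := by
  unfold ka
  rw [neg_sq]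

theorem t_W2 (hINTS : S_INTS) : S_W2 := by
  intro C0 hC0 D b hb hb12 η hη
  obtain ⟨C, hC, hI1, hI2⟩ := hINTS
  have hπ := Real.pi_pos
  -- eventual conditions
  have ev1 : ∀ᶠ T : ℝ in atTop, 1 / b ≤ Real.log T :=
    Real.tendsto_log_atTop.eventually_ge_atTop _
  have ev2 : ∀ᶠ T : ℝ in atTop, C * C0 * b * Real.log T ^ 3 ≤ η * T := by
    have h := (Real.isLittleO_pow_log_id_atTop (n := 3)).def
      (show (0:ℝ) < η / (C * C0 * b) by positivity)
    filter_upwards [h, eventually_ge_atTop (1:ℝ)] with T h1 h2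
    have h3 : Real.log T ^ 3 ≤ η / (C * C0 * b) * T := by
      have h4 : ‖Real.log T ^ 3‖ = Real.log T ^ 3 := by
        rw [Real.norm_eq_abs, abs_of_nonneg (pow_nonneg (Real.log_nonneg h2) 3)]
      have h5 : ‖id T‖ = T := by
        rw [id, Real.norm_eq_abs, abs_of_nonneg (by linarith)]
      rw [h4, h5] at h1
      exact h1
    calc C * C0 * b * Real.log T ^ 3 ≤ C * C0 * b * (η / (C * C0 * b) * T) :=
          mul_le_mul_of_nonneg_left h3 (by positivity)
      _ = η * T := by field_simp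
  have ev3 : ∀ᶠ T : ℝ in atTop, 8 * C * C0 / b * Real.log T ≤ η / 4 * T := by
    have h := (Real.isLittleO_pow_log_id_atTop (n := 1)).def
      (show (0:ℝ) < η / 4 / (8 * C * C0 / b) by positivity)
    filter_upwards [h, eventually_ge_atTop (1:ℝ)] with T h1 h2
    have h3 : Real.log T ≤ η / 4 / (8 * C * C0 / b) * T := by
      have h4 : ‖Real.log T ^ 1‖ = Real.log T := by
        rw [pow_one, Real.norm_eq_abs, abs_of_nonneg (Real.log_nonneg h2)]
      have h5 : ‖id T‖ = T := by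
        rw [id, Real.norm_eq_abs, abs_of_nonneg (by linarith)]
      rw [h4, h5] at h1
      exact h1
    calc 8 * C * C0 / b * Real.log T ≤ 8 * C * C0 / b * (η / 4 / (8 * C * C0 / b) * T) :=
          mul_le_mul_of_nonneg_left h3 (by positivity)
      _ = η / 4 * T := by field_simp
  filter_upwards [ev1, ev2, ev3, D.cnt (η * b / (8 * Real.pi)) (by positivity),
    eventually_ge_atTop (10:ℝ)] with T e1 e2 e3 e4 e5
  have hL0 : 0 < Real.log T := Real.log_pos (by linarith)
  set L := Real.log T with hL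
  set a := b * L with ha
  have ha1 : 1 ≤ a := by
    rw [ha]
    rw [div_le_iff₀ hb] at e1
    linarith
  have ha0 : 0 < a := by linarith
  have hB1 := bins1 hC0 D e5
  have hB2 := bins2 hC0 D e5
  have hpos1 : ∀ s ∈ zw D.ZG T, 0 ≤ s.im - T := by
    intro s hs
    have h1 := (Finset.mem_filter.1 hs).2
    linarith
  have hpos2 : ∀ s ∈ zw D.ZG T, 0 ≤ 3 * T / 2 - s.im := by
    intro s hs
    have h2 := (D.mem _ s (Finset.mem_filter.1 hs).1).2.1
    linarith
  constructor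
  · -- the quadratic term
    have h1 : ∫ t in T..(3 * T / 2), QF (zw D.ZG T) D.m T b t =
        ∑ s ∈ zw D.ZG T, D.m s * ((a * (s.re - 1 / 2)) ^ 2 / 2 *
          ∫ t in T..(3 * T / 2), pp (a * (s.im - t))) := by
      unfold QF
      rw [intervalIntegral.integral_finsetSum]
      · refine Finset.sum_congr rfl fun s _ => ?_
        rw [intervalIntegral.integral_const_mul, intervalIntegral.integral_const_mul]
      · intro s _
        apply Continuous.intervalIntegrable
        have := cont_pp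
        fun_prop
    rw [h1]
    refine (Finset.abs_sum_le_sum_abs _ _).trans ?_
    have h2 : ∀ s ∈ zw D.ZG T, |D.m s * ((a * (s.re - 1 / 2)) ^ 2 / 2 *
          ∫ t in T..(3 * T / 2), pp (a * (s.im - t)))| ≤
        (C * a / 8) * (D.m s * (1 / (1 + (⌊s.im - T⌋₊ : ℝ)))) +
        (C * a / 8) * (D.m s * (1 / (1 + (⌊3 * T / 2 - s.im⌋₊ : ℝ)))) := by
      intro s hs
      have hm := D.hm s
      have hmem := D.mem _ s (Finset.mem_filter.1 hs).1
      rw [abs_mul, abs_mul, abs_of_nonneg hm,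
        abs_of_nonneg (show 0 ≤ (a * (s.re - 1 / 2)) ^ 2 / 2 by positivity)]
      have h3 := hI2 a s.im T (3 * T / 2) ha0
      have h4 : (a * (s.re - 1 / 2)) ^ 2 / 2 ≤ a ^ 2 / 8 := by
        have : (s.re - 1 / 2) ^ 2 ≤ 1 / 4 := by nlinarith [hmem.2.2.1, hmem.2.2.2]
        rw [mul_pow]
        nlinarith [sq_nonneg a]
      have h5 : ka (a * (s.im - T)) ≤ 1 / (1 + (⌊s.im - T⌋₊ : ℝ)) := ka_le ha1 (hpos1 s hs)
      have h6 : ka (a * (s.im - 3 * T / 2)) ≤ 1 / (1 + (⌊3 * T / 2 - s.im⌋₊ : ℝ)) := by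
        have h7 : a * (s.im - 3 * T / 2) = -(a * (3 * T / 2 - s.im)) := by ring
        rw [h7, ka_neg]
        exact ka_le ha1 (hpos2 s hs)
      have h8 : |∫ t in T..(3 * T / 2), pp (a * (s.im - t))| ≤
          C / a * (1 / (1 + (⌊s.im - T⌋₊ : ℝ)) + 1 / (1 + (⌊3 * T / 2 - s.im⌋₊ : ℝ))) := by
        refine h3.trans ?_
        have : 0 ≤ C / a := by positivity
        exact mul_le_mul_of_nonneg_left (add_le_add h5 h6) this
      calc D.m s * ((a * (s.re - 1 / 2)) ^ 2 / 2 * |∫ t in T..(3 * T / 2), pp (a * (s.im - t))|) ≤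
          D.m s * (a ^ 2 / 8 * (C / a * (1 / (1 + (⌊s.im - T⌋₊ : ℝ)) +
            1 / (1 + (⌊3 * T / 2 - s.im⌋₊ : ℝ))))) := by
            apply mul_le_mul_of_nonneg_left _ hm
            exact mul_le_mul h4 h8 (abs_nonneg _) (by positivity)
        _ = _ := by
            field_simp
    refine (Finset.sum_le_sum h2).trans ?_
    rw [Finset.sum_add_distrib, ← Finset.mul_sum, ← Finset.mul_sum]
    have h9 : 0 ≤ C * a / 8 := by positivity
    have h10 := mul_le_mul_of_nonneg_left hB1 h9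
    have h11 := mul_le_mul_of_nonneg_left hB2 h9
    have h12 : C * a / 8 * (4 * C0 * L ^ 2) + C * a / 8 * (4 * C0 * L ^ 2) =
        C * C0 * b * L ^ 3 := by
      rw [ha]
      ring
    linarith
  · -- the main term
    have h1 : ∫ t in T..(3 * T / 2), AF (zw D.ZG T) D.m T b t =
        ∑ s ∈ zw D.ZG T, D.m s * ∫ t in T..(3 * T / 2), fj (a * (s.im - t)) := by
      unfold AF
      rw [intervalIntegral.integral_finsetSum]
      · refine Finset.sum_congr rfl fun s _ => ?_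
        rw [intervalIntegral.integral_const_mul]
      · intro s _
        apply Continuous.intervalIntegrable
        have := cont_fj
        fun_prop
    rw [h1]
    have h2 : ∀ s ∈ zw D.ZG T, (2 * Real.pi / a) * D.m s -
        ((C / a) * (D.m s * (1 / (1 + (⌊s.im - T⌋₊ : ℝ)))) +
        (C / a) * (D.m s * (1 / (1 + (⌊3 * T / 2 - s.im⌋₊ : ℝ))))) ≤
        D.m s * ∫ t in T..(3 * T / 2), fj (a * (s.im - t)) := by
      intro s hs
      have hm := D.hm s
      have p1 := hpos1 s hs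
      have p2 := hpos2 s hs
      have h3 := hI1 a s.im T (3 * T / 2) ha0 (by linarith) (by linarith)
      have h5 := inv_le ha1 p1
      have h6 := inv_le ha1 p2
      have h7 : 2 * Real.pi / a - C / a * (1 / (1 + (⌊s.im - T⌋₊ : ℝ)) +
          1 / (1 + (⌊3 * T / 2 - s.im⌋₊ : ℝ))) ≤ ∫ t in T..(3 * T / 2), fj (a * (s.im - t)) := by
        refine le_trans ?_ h3
        have : 0 ≤ C / a := by positivity
        have h8 := mul_le_mul_of_nonneg_left (add_le_add h5 h6) this
        linarith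
      have h9 := mul_le_mul_of_nonneg_left h7 hm
      refine le_trans (le_of_eq ?_) h9
      ring
    refine le_trans ?_ (Finset.sum_le_sum h2)
    rw [Finset.sum_sub_distrib, Finset.sum_add_distrib, ← Finset.mul_sum, ← Finset.mul_sum,
      ← Finset.mul_sum]
    have h9 : 0 ≤ C / a := by positivity
    have h10 := mul_le_mul_of_nonneg_left hB1 h9
    have h11 := mul_le_mul_of_nonneg_left hB2 h9
    have h12 : C / a * (4 * C0 * L ^ 2) + C / a * (4 * C0 * L ^ 2) = 8 * C * C0 / b * L := by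
      rw [ha]
      field_simp
      ring
    have h13 := (abs_le.1 e4).1
    have h14 : T * L / (4 * Real.pi) - η * b / (8 * Real.pi) * (T * L) ≤
        ∑ s ∈ zw D.ZG T, D.m s := by linarith
    have h15 := mul_le_mul_of_nonneg_left h14 (show 0 ≤ 2 * Real.pi / a by positivity)
    have h16 : 2 * Real.pi / a * (T * L / (4 * Real.pi) - η * b / (8 * Real.pi) * (T * L)) =
        T / (2 * b) - η / 4 * T := by
      rw [ha]
      field_simp
      ring
    have h17 : (1 / b - η) * (T / 2) = T / (2 * b) - η / 4 * T - η / 4 * T := by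
      field_simp
      ring
    linarith

end Pool.Agent.H229.OS.W2
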